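import Pool.Agent.Lib.helper21.Epd2
import Pool.Agent.Lib.helper21.Montel

set_option autoImplicit false

namespace Pool.Agent.Results.MP_c40ba2_an.Normal

open Set Metric Filter

/-- The `n`-th Taylor coefficient at the origin. -/
noncomputable def coeff (f : ℂ → ℂ) (n : ℕ) : ℂ := iteratedDeriv n f 0 / n.factorial

/-- The Hadamard product. -/
noncomputable def conv (f g : ℂ → ℂ) (z : ℂ) : ℂ := ∑' n : ℕ, coeff f n * coeff g n * z ^ n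

/-- The class `T(α, β)`. -/
def T (α β : ℝ) : Set (ℂ → ℂ) := {φ | DifferentiableOn ℂ φ (ball 0 1) ∧ φ 0 = 1 ∧ ∀ x : ℂ, ‖x‖ = 1 →
  ∀ z ∈ ball (0 : ℂ) 1, conv φ (fun w => (1 + x * w) ^ (α : ℂ) / (1 - w) ^ (β : ℂ)) z ≠ 0}

/-- `T(α, β)` is locally uniformly bounded and normal in the unit disc. -/
theorem result (α β : ℝ) (hα : 1 ≤ α) (hβ : 1 ≤ β) :
    (∀ r < 1, ∃ M : ℝ, ∀ φ ∈ T α β, ∀ z : ℂ, ‖z‖ ≤ r → ‖φ z‖ ≤ M) ∧
    ∀ φ : ℕ → ℂ → ℂ, (∀ k, φ k ∈ T α β) → ∃ s : ℕ → ℕ, StrictMono s ∧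
      ∃ g : ℂ → ℂ, TendstoLocallyUniformlyOn (fun k => φ (s k)) g atTop (ball 0 1) := by
  have h : ∀ r < 1, ∃ M : ℝ, ∀ φ ∈ T α β, ∀ z : ℂ, ‖z‖ ≤ r → ‖φ z‖ ≤ M := fun r hr =>
    (Pool.Agent.Lib.Helper21.Epd.normal hα hβ hr).imp fun M h φ t => h φ t.1 t.2.1 t.2.2
  exact ⟨h, fun φ t => Pool.Agent.Lib.Helper21.Montel.montel (fun k => (t k).1) fun r hr =>
    (h r hr).imp fun M h k => h _ (t k)⟩

end Pool.Agent.Results.MP_c40ba2_an.Normal
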